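import Mathlib
import Pool.Agent.W262.TW.Stm
import Pool.Agent.W262.RK.SymL

/-!
# Project TW: linked variables with the condition `product ≤ Y`
-/

set_option autoImplicit false

namespace Pool.Agent.W762.TW

open Finset Pool.Agent.W262.RK Pool.Agent.W262.TW

theorem abs_mf (b : ℕ → ℝ) (n : ℕ) : |mf b n| = mf (fun p => |b p|) n := by
  unfold mf
  rw [Finset.abs_prod]

theorem mf_nonneg {b : ℕ → ℝ} (hb : ∀ p, 0 ≤ b p) (n : ℕ) : 0 ≤ mf b n :=
  Finset.prod_nonneg fun p _ => hb p

open Classical in
theorem mem_TT {ι I : Type} [Fintype ι] [DecidableEq ι] (g : ι → I) (z Y V : ℕ) (e : ι → ℕ) :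
    e ∈ TT g z Y V ↔ (e ∈ Fintype.piFinset (fun _ : ι => Icc 1 Y)) ∧ (∀ a, Rg z (e a)) ∧
      (∀ a b, a ≠ b → (e a).Coprime (e b)) ∧ ∏ a, e a ≤ Y ∧
      ∀ i, V < ∏ a ∈ univ.filter (fun a => g a = i), e a := by
  unfold TT
  rw [Finset.mem_filter]

/-- powers of logarithms -/
theorem pow_log {ε : ℝ} (hε : 0 < ε) (n B' : ℕ) {x : ℝ} (hx : 1 ≤ x) :
    (1 + B' * Real.log x) ^ n ≤ (1 + B' / (ε / (n + 1))) ^ n * x ^ ε := by
  have hn : (0 : ℝ) < (n : ℝ) + 1 := by positivity
  have hδ : 0 < ε / ((n : ℝ) + 1) := by positivity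
  set δ : ℝ := ε / ((n : ℝ) + 1) with hδd
  have hx0 : 0 < x := by linarith
  have h1 : Real.log x ≤ x ^ δ / δ := Real.log_le_rpow_div hx0.le hδ
  have h2 : 1 ≤ x ^ δ := Real.one_le_rpow hx hδ.le
  have h3 : 1 + B' * Real.log x ≤ (1 + B' / δ) * x ^ δ := by
    have h4 : (B' : ℝ) * Real.log x ≤ B' * (x ^ δ / δ) :=
      mul_le_mul_of_nonneg_left h1 (Nat.cast_nonneg _)
    have h5 : (1 + (B' : ℝ) / δ) * x ^ δ = x ^ δ + B' * (x ^ δ / δ) := by ring
    rw [h5]
    linarith
  have h0 : 0 ≤ 1 + B' * Real.log x := by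
    have := Real.log_nonneg hx
    positivity
  calc (1 + B' * Real.log x) ^ n ≤ ((1 + B' / δ) * x ^ δ) ^ n := pow_le_pow_left₀ h0 h3 n
    _ = (1 + B' / δ) ^ n * x ^ (δ * n) := by
        rw [mul_pow, ← Real.rpow_natCast (x ^ δ) n, ← Real.rpow_mul hx0.le]
    _ ≤ (1 + B' / δ) ^ n * x ^ ε := by
        apply mul_le_mul_of_nonneg_left _ (by positivity)
        apply Real.rpow_le_rpow_of_exponent_le hx
        rw [hδd, div_mul_eq_mul_div, div_le_iff₀ hn]
        nlinarith

theorem core (h1 : LINK) (h2 : TRIV) : CORE := by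
  classical
  intro ι I _ _ g L hL ε hε
  obtain ⟨C1, E, hLink⟩ := h1 ι I g L hL
  obtain ⟨C2, hTriv⟩ := h2 ι
  refine ⟨24 * (E + 1), fun B' => ?_⟩
  set n : ℕ := Fintype.card ι with hn
  set C3 : ℝ := (1 + B' / (ε / (n + 1))) ^ n with hC3
  have hC30 : 0 ≤ C3 := by positivity
  refine ⟨2 ^ n * (|C1| + |C2| * C3), ?_⟩
  intro z Y V V0 κ b M hz hY hV0 hVB hVB' hV hb hM hMA
  have hYr : (3 : ℝ) ≤ Y := by exact_mod_cast hY
  have hY0 : (0 : ℝ) < Y := by linarith
  have hlog : 1 ≤ Real.log Y := by
    rw [Real.le_log_iff_exp_le hY0]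
    have := Real.exp_one_lt_d9
    linarith
  have hlog0 : 0 < Real.log Y := by linarith
  have hV0r : (2 : ℝ) ≤ V0 := by exact_mod_cast hV0
  have hV00 : (0 : ℝ) < V0 := by linarith
  set W : ℝ := Y * (Real.log Y) ^ (ε - 1) * M with hW
  have hW0 : 0 ≤ W := by positivity
  -- the pieces
  have hpiece : ∀ A : Finset ι,
      |∑ e ∈ (TT g z Y V).filter (fun e => ∀ a, a ∈ A ↔ V0 < e a),
        (∏ a, mf (b a) (e a)) * Sym L κ e| ≤ (|C1| + |C2| * C3) * W := by
    intro A
    by_cases hun : ∀ a ∈ A, ∀ c ∈ A, L a c = L c a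
    · by_cases hI : V = 0 ∨ ∀ i, ∃ a ∈ A, g a = i
      · -- unlinked: the trivial bound
        have hMM := hMA A hun hI
        have h3 : |∑ e ∈ (TT g z Y V).filter (fun e => ∀ a, a ∈ A ↔ V0 < e a),
            (∏ a, mf (b a) (e a)) * Sym L κ e| ≤
            ∑ e ∈ (TT (fun a : ι => a) z Y 0).filter (fun e => ∀ a, a ∉ A → e a ≤ V0),
              ∏ a, mf (fun p => |b a p|) (e a) := by
          refine (Finset.abs_sum_le_sum_abs _ _).trans ?_
          refine (Finset.sum_le_sum (g := fun e => ∏ a, mf (fun p => |b a p|) (e a))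
            fun e _ => ?_).trans ?_
          · rw [abs_mul, Finset.abs_prod]
            have h4 : ∏ a, |mf (b a) (e a)| = ∏ a, mf (fun p => |b a p|) (e a) :=
              Finset.prod_congr rfl fun a _ => abs_mf (b a) (e a)
            rw [h4]
            have h5 : 0 ≤ ∏ a, mf (fun p => |b a p|) (e a) :=
              Finset.prod_nonneg fun a _ => mf_nonneg (fun p => abs_nonneg _) _
            calc (∏ a, mf (fun p => |b a p|) (e a)) * |Sym L κ e| ≤
                (∏ a, mf (fun p => |b a p|) (e a)) * 1 :=
                  mul_le_mul_of_nonneg_left (abs_Sym_le _ _ _) h5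
              _ = _ := mul_one _
          · refine Finset.sum_le_sum_of_subset_of_nonneg ?_ fun e _ _ =>
              Finset.prod_nonneg fun a _ => mf_nonneg (fun p => abs_nonneg _) _
            intro e he
            rw [Finset.mem_filter] at he ⊢
            obtain ⟨he1, he2⟩ := he
            rw [mem_TT] at he1 ⊢
            obtain ⟨h6, h7, h8, h9, _⟩ := he1
            refine ⟨⟨h6, h7, h8, h9, fun i => ?_⟩, fun a ha => ?_⟩
            · refine Finset.prod_pos fun a _ => ?_
              have := Fintype.mem_piFinset.1 h6 a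
              rw [Finset.mem_Icc] at this
              omega
            · by_contra hcon
              exact ha ((he2 a).2 (not_le.1 hcon))
        have h4 := hTriv z Y V0 (fun a p => |b a p|) A hY (by omega)
          (fun a p => ⟨abs_nonneg _, hb a p⟩)
        refine h3.trans (h4.trans ?_)
        have h5 : 0 ≤ Real.log V0 := Real.log_nonneg (by linarith)
        have h6 : Real.log V0 ≤ B' * Real.log (Real.log Y) := by
          rw [← Real.log_pow]
          exact Real.log_le_log hV00 hVB'
        have h7 : (1 + Real.log V0) ^ Fintype.card ι ≤ C3 * (Real.log Y) ^ ε := by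
          refine (pow_le_pow_left₀ (by linarith) (by linarith) _).trans
            (pow_log hε n B' hlog)
        have h8 : (Y : ℝ) / Real.log Y * (Real.log Y) ^ ε = Y * (Real.log Y) ^ (ε - 1) := by
          rw [Real.rpow_sub hlog0, Real.rpow_one]
          ring
        have h9 : 0 ≤ (Y : ℝ) / Real.log Y := by positivity
        calc C2 * (Y / Real.log Y) * (1 + Real.log V0) ^ Fintype.card ι *
              Real.exp (∑ p ∈ PS z Y, (∑ a ∈ A, |b a p|) / p)
            ≤ |C2| * (Y / Real.log Y) * (C3 * (Real.log Y) ^ ε) * M := by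
              apply mul_le_mul _ hMM (Real.exp_pos _).le (by positivity)
              apply mul_le_mul _ h7 (by positivity) (by positivity)
              exact mul_le_mul_of_nonneg_right (le_abs_self _) h9
          _ = |C2| * C3 * W := by
              rw [hW, ← h8]
              ring
          _ ≤ (|C1| + |C2| * C3) * W := by
              nlinarith [mul_nonneg (abs_nonneg C1) hW0]
      · -- a group without large variables: impossible
        push Not at hI
        obtain ⟨hVne, i, hi⟩ := hI
        have hempty : (TT g z Y V).filter (fun e => ∀ a, a ∈ A ↔ V0 < e a) = ∅ := by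
          rw [Finset.eq_empty_iff_forall_notMem]
          intro e he
          rw [Finset.mem_filter] at he
          obtain ⟨he1, he2⟩ := he
          rw [mem_TT] at he1
          obtain ⟨_, _, _, _, h10⟩ := he1
          have h11 := h10 i
          have h12 : ∏ a ∈ univ.filter (fun a => g a = i), e a ≤ V0 ^ n := by
            calc ∏ a ∈ univ.filter (fun a => g a = i), e a
                ≤ ∏ _a ∈ univ.filter (fun a => g a = i), V0 := by
                  refine Finset.prod_le_prod' fun a ha => ?_
                  rw [Finset.mem_filter] at ha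
                  by_contra hcon
                  exact hi a ((he2 a).2 (not_le.1 hcon)) ha.2
              _ = V0 ^ (univ.filter (fun a => g a = i)).card := by rw [Finset.prod_const]
              _ ≤ V0 ^ n := Nat.pow_le_pow_right (by omega) (Finset.card_le_univ _)
          have h13 : V0 ^ n ≤ V := by
            rcases hV with h | h
            · exact absurd h hVne
            · exact h
          omega
        rw [hempty, Finset.sum_empty, abs_zero]
        positivity
    · -- linked
      push Not at hun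
      obtain ⟨a, ha, c, hc, hac⟩ := hun
      have hlk : |∑ e ∈ (TT g z Y V).filter (fun e => ∀ a, a ∈ A ↔ V0 < e a),
          (∏ a, mf (b a) (e a)) * Sym L κ e| ≤
          C1 * (Real.log Y) ^ E * Y * (V0 : ℝ) ^ (-(1 / 24 : ℝ)) := by
        cases h3 : L a c with
        | false =>
          have h4 : L c a = true := by
            cases h5 : L c a with
            | false => exact absurd (h3.trans h5.symm) hac
            | true => rfl
          exact hLink z Y V V0 κ b hz hY hV0 hb A c a hc ha h4 h3
        | true =>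
          have h4 : L c a = false := by
            cases h5 : L c a with
            | true => exact absurd (h3.trans h5.symm) hac
            | false => rfl
          exact hLink z Y V V0 κ b hz hY hV0 hb A a c ha hc h3 h4
      refine hlk.trans ?_
      have h5 : (V0 : ℝ) ^ (-(1 / 24 : ℝ)) ≤ (Real.log Y) ^ (-((E : ℝ) + 1)) := by
        calc (V0 : ℝ) ^ (-(1 / 24 : ℝ)) ≤ ((Real.log Y) ^ (24 * (E + 1))) ^ (-(1 / 24 : ℝ)) :=
              Real.rpow_le_rpow_of_nonpos (by positivity) hVB (by norm_num)
          _ = (Real.log Y) ^ (-((E : ℝ) + 1)) := by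
              rw [← Real.rpow_natCast, ← Real.rpow_mul hlog0.le]
              congr 1
              push_cast
              ring
      have h6 : (Real.log Y) ^ E * (Real.log Y) ^ (-((E : ℝ) + 1)) = (Real.log Y) ^ (-1 : ℝ) := by
        rw [← Real.rpow_natCast, ← Real.rpow_add hlog0]
        congr 1
        ring
      have h7 : (Real.log Y) ^ (-1 : ℝ) ≤ (Real.log Y) ^ (ε - 1) :=
        Real.rpow_le_rpow_of_exponent_le hlog (by linarith)
      calc C1 * (Real.log Y) ^ E * Y * (V0 : ℝ) ^ (-(1 / 24 : ℝ))
          ≤ |C1| * (Real.log Y) ^ E * Y * (Real.log Y) ^ (-((E : ℝ) + 1)) := by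
            apply mul_le_mul _ h5 (by positivity) (by positivity)
            apply mul_le_mul_of_nonneg_right _ hY0.le
            exact mul_le_mul_of_nonneg_right (le_abs_self _) (by positivity)
        _ = |C1| * (Y * (Real.log Y) ^ (-1 : ℝ)) := by
            rw [← h6]
            ring
        _ ≤ |C1| * (Y * (Real.log Y) ^ (ε - 1) * M) := by
            apply mul_le_mul_of_nonneg_left _ (abs_nonneg _)
            calc (Y : ℝ) * (Real.log Y) ^ (-1 : ℝ) ≤ Y * (Real.log Y) ^ (ε - 1) :=
                  mul_le_mul_of_nonneg_left h7 hY0.le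
              _ = Y * (Real.log Y) ^ (ε - 1) * 1 := (mul_one _).symm
              _ ≤ _ := mul_le_mul_of_nonneg_left hM (by positivity)
        _ ≤ (|C1| + |C2| * C3) * W := by
            rw [← hW]
            have : 0 ≤ |C2| * C3 * W := by positivity
            linarith
  -- the sum over the pieces
  have hsum : ∑ e ∈ TT g z Y V, (∏ a, mf (b a) (e a)) * Sym L κ e =
      ∑ A : Finset ι, ∑ e ∈ (TT g z Y V).filter (fun e => ∀ a, a ∈ A ↔ V0 < e a),
        (∏ a, mf (b a) (e a)) * Sym L κ e := by
    rw [← Finset.sum_fiberwise (TT g z Y V)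
      (fun e => univ.filter (fun a => V0 < e a))]
    refine Finset.sum_congr rfl fun A _ => ?_
    refine Finset.sum_congr (Finset.filter_congr fun e _ => ?_) fun _ _ => rfl
    rw [Finset.ext_iff]
    simp only [Finset.mem_filter, Finset.mem_univ, true_and]
    exact forall_congr' fun a => Iff.comm
  rw [hsum]
  calc |∑ A : Finset ι, ∑ e ∈ (TT g z Y V).filter (fun e => ∀ a, a ∈ A ↔ V0 < e a),
        (∏ a, mf (b a) (e a)) * Sym L κ e|
      ≤ ∑ A : Finset ι, |∑ e ∈ (TT g z Y V).filter (fun e => ∀ a, a ∈ A ↔ V0 < e a),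
        (∏ a, mf (b a) (e a)) * Sym L κ e| := Finset.abs_sum_le_sum_abs _ _
    _ ≤ ∑ _A : Finset ι, (|C1| + |C2| * C3) * W := Finset.sum_le_sum fun A _ => hpiece A
    _ = 2 ^ n * (|C1| + |C2| * C3) * Y * (Real.log Y) ^ (ε - 1) * M := by
        rw [Finset.sum_const, Finset.card_univ, Fintype.card_finset, nsmul_eq_mul, hW]
        push_cast
        ring

end Pool.Agent.W762.TW
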