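import Mathlib
import Pool.Agent.W262.TW.Stm2

/-!
# Project TW: small and large variables
-/

set_option autoImplicit false

namespace Pool.Agent.W762.TW

open Finset Pool.Agent.W262.RK Pool.Agent.W262.TW

open Classical in
/-- the finite set counted by `cnt` -/
noncomputable def cntF {K : Type} [Fintype K] [DecidableEq K] (z Y V : ℕ) (κ : K → ℤ)
    (Θ : K → ℕ → Finset (Finset K)) : Finset (K → ℕ) :=
  (Fintype.piFinset (fun _ : K => Icc 1 Y)).filter (fun D => (∀ i, Rg z (D i) ∧ V < D i) ∧
    (∀ i j, i ≠ j → (D i).Coprime (D j)) ∧ ∏ i, D i ≤ Y ∧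
    ∀ i, ∀ p ∈ (D i).primeFactors, ngs (fun k => κ k * D k) i p ∈ Θ i p)

theorem cnt_eq {K : Type} [Fintype K] [DecidableEq K] (z Y V : ℕ) (κ : K → ℤ)
    (Θ : K → ℕ → Finset (Finset K)) : cnt z Y V κ Θ = (cntF z Y V κ Θ).card := rfl

open Classical in
theorem mem_cntF {K : Type} [Fintype K] [DecidableEq K] {z Y V : ℕ} {κ : K → ℤ}
    {Θ : K → ℕ → Finset (Finset K)} {D : K → ℕ} : D ∈ cntF z Y V κ Θ ↔
    (∀ i, D i ∈ Icc 1 Y) ∧ (∀ i, Rg z (D i) ∧ V < D i) ∧
    (∀ i j, i ≠ j → (D i).Coprime (D j)) ∧ ∏ i, D i ≤ Y ∧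
    ∀ i, ∀ p ∈ (D i).primeFactors, ngs (fun k => κ k * D k) i p ∈ Θ i p := by
  unfold cntF
  rw [Finset.mem_filter, Fintype.mem_piFinset]

open Classical in
/-- the finite set counted by `cntS` -/
noncomputable def cntSF {K : Type} [Fintype K] [DecidableEq K] (z Y : ℕ) (κ : K → ℤ)
    (c : K → K → ℤ) : Finset (K → ℕ) :=
  (Fintype.piFinset (fun _ : K => Icc 1 Y)).filter (fun D => (∀ i, Rg z (D i)) ∧
    (∀ i j, i ≠ j → (D i).Coprime (D j)) ∧ ∏ i, D i ≤ Y ∧
    (∀ i, ∀ p ∈ (D i).primeFactors, ngs (fun k => κ k * D k) i p ∈ Ths c i p) ∧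
    NC c (fun k => κ k * D k))

theorem cntS_eq {K : Type} [Fintype K] [DecidableEq K] (z Y : ℕ) (κ : K → ℤ)
    (c : K → K → ℤ) : cntS z Y κ c = (cntSF z Y κ c).card := rfl

open Classical in
theorem mem_cntSF {K : Type} [Fintype K] [DecidableEq K] {z Y : ℕ} {κ : K → ℤ}
    {c : K → K → ℤ} {D : K → ℕ} : D ∈ cntSF z Y κ c ↔
    (∀ i, D i ∈ Icc 1 Y) ∧ (∀ i, Rg z (D i)) ∧
    (∀ i j, i ≠ j → (D i).Coprime (D j)) ∧ ∏ i, D i ≤ Y ∧
    (∀ i, ∀ p ∈ (D i).primeFactors, ngs (fun k => κ k * D k) i p ∈ Ths c i p) ∧
    NC c (fun k => κ k * D k) := by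
  unfold cntSF
  rw [Finset.mem_filter, Fintype.mem_piFinset]

open Classical in
theorem mem_UU {K : Type} [Fintype K] [DecidableEq K] {z V : ℕ} {c : K → K → ℤ} {κ : K → ℤ}
    {I : Finset K} {u : K → ℕ} : u ∈ UU z V c κ I ↔
    (∀ k, u k ∈ (if k ∈ I then {1} else Icc 1 V : Finset ℕ)) ∧
    (∀ k, Rg z (u k)) ∧ (∀ i, I = {i} → ∃ k l, k ≠ i ∧ l ≠ i ∧
      ¬ IsSquare (κ k * u k * (κ l * u l) * (c i k * c i l))) := by
  unfold UU
  rw [Finset.mem_filter, Fintype.mem_piFinset]

/-- gluing -/
def glue {K : Type} [DecidableEq K] (I : Finset K) (u : K → ℕ) (D : {k // k ∈ I} → ℕ) : K → ℕ :=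
  fun k => if h : k ∈ I then D ⟨k, h⟩ else u k

theorem regs : REGS := by
  classical
  intro K _ _ z X V κ c hV hκ
  have hsub : cntSF z X κ c ⊆ Fintype.piFinset (fun _ : K => Icc 1 V) ∪
      (univ.filter (fun I : Finset K => I.Nonempty)).biUnion (fun I =>
        (UU z V c κ I).biUnion (fun u =>
          (cntF z (X / ∏ k, u k) V (fun k : {k // k ∈ I} => κ k) (ThI c κ u I)).image
            (glue I u))) := by
    intro D hD
    rw [mem_cntSF] at hD
    obtain ⟨hD1, hD2, hD3, hD4, hD5, hD6⟩ := hD
    rw [Finset.mem_union]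
    by_cases hall : ∀ k, D k ≤ V
    · left
      rw [Fintype.mem_piFinset]
      intro k
      have := hD1 k
      rw [Finset.mem_Icc] at this ⊢
      exact ⟨this.1, hall k⟩
    · right
      push Not at hall
      obtain ⟨k0, hk0⟩ := hall
      set I : Finset K := univ.filter (fun k => V < D k) with hI
      have hmI : ∀ k, k ∈ I ↔ V < D k := fun k => by
        rw [hI, Finset.mem_filter]
        simp
      set u : K → ℕ := fun k => if k ∈ I then 1 else D k with hu
      have huI : ∀ k, k ∈ I → u k = 1 := fun k hk => by rw [hu]; exact if_pos hk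
      have hunI : ∀ k, k ∉ I → u k = D k := fun k hk => by rw [hu]; exact if_neg hk
      have hD0 : ∀ k, 0 < D k := fun k => by
        have := hD1 k
        rw [Finset.mem_Icc] at this
        omega
      have hu0 : ∀ k, 0 < u k := by
        intro k
        by_cases hk : k ∈ I
        · rw [huI k hk]; exact one_pos
        · rw [hunI k hk]; exact hD0 k
      have hprod : (∏ k : {k // k ∈ I}, D k) * ∏ k, u k = ∏ k, D k := by
        have h1 : ∏ k : {k // k ∈ I}, D k = ∏ k, if k ∈ I then D k else 1 := by
          rw [Finset.prod_ite_mem, Finset.univ_inter, Finset.prod_coe_sort I D]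
        rw [h1, ← Finset.prod_mul_distrib]
        refine Finset.prod_congr rfl fun k _ => ?_
        by_cases hk : k ∈ I
        · rw [if_pos hk, huI k hk, mul_one]
        · rw [if_neg hk, hunI k hk, one_mul]
      have hprodle : ∏ k : {k // k ∈ I}, D k ≤ X / ∏ k, u k := by
        rw [Nat.le_div_iff_mul_le (Finset.prod_pos fun k _ => hu0 k), hprod]
        exact hD4
      rw [Finset.mem_biUnion]
      refine ⟨I, Finset.mem_filter.2 ⟨Finset.mem_univ _, ⟨k0, (hmI k0).2 hk0⟩⟩, ?_⟩
      rw [Finset.mem_biUnion]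
      refine ⟨u, ?_, ?_⟩
      · rw [mem_UU]
        refine ⟨fun k => ?_, fun k => ?_, fun i hi => ?_⟩
        · by_cases hk : k ∈ I
          · rw [if_pos hk, Finset.mem_singleton]
            exact huI k hk
          · rw [if_neg hk, Finset.mem_Icc, hunI k hk]
            exact ⟨hD0 k, not_lt.1 fun h => hk ((hmI k).2 h)⟩
        · by_cases hk : k ∈ I
          · rw [huI k hk]
            refine ⟨squarefree_one, fun p hp hp1 => ?_⟩
            exact absurd (Nat.dvd_one.1 hp1) hp.one_lt.ne'
          · rw [hunI k hk]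
            exact hD2 k
        · obtain ⟨k, l, hk, hl, hkl⟩ := hD6 i
          refine ⟨k, l, hk, hl, ?_⟩
          have hk' : k ∉ I := by rw [hi, Finset.mem_singleton]; exact hk
          have hl' : l ∉ I := by rw [hi, Finset.mem_singleton]; exact hl
          rw [hunI k hk', hunI l hl']
          exact hkl
      · rw [Finset.mem_image]
        refine ⟨fun k => D k, ?_, ?_⟩
        · rw [mem_cntF]
          refine ⟨fun i => ?_, fun i => ⟨hD2 i, (hmI i).1 i.2⟩, fun i j hij => ?_, hprodle,
            fun i p hp => ?_⟩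
          · rw [Finset.mem_Icc]
            refine ⟨hD0 i, le_trans ?_ hprodle⟩
            exact Nat.le_of_dvd (Finset.prod_pos fun k _ => hD0 k)
              (Finset.dvd_prod_of_mem (fun k : {k // k ∈ I} => D k) (Finset.mem_univ i))
          · exact hD3 i j fun h => hij (Subtype.ext h)
          · have hp1 : p.Prime := Nat.prime_of_mem_primeFactors hp
            have hp2 : p ∣ D i := Nat.dvd_of_mem_primeFactors hp
            have hzp : z < p := (hD2 i).2 p hp1 hp2
            have hN := hD5 i p hp
            unfold ThI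
            rw [Finset.mem_image]
            refine ⟨ngs (fun k => κ k * D k) i p, Finset.mem_filter.2 ⟨hN, fun l hl => ?_⟩, ?_⟩
            · rw [hunI l hl]
              have hli : l ≠ i := fun h => hl (h ▸ i.2)
              have hcop : Int.gcd (κ l * (D l : ℤ)) p = 1 := by
                rw [Int.gcd_comm, ← Int.isCoprime_iff_gcd_eq_one, IsCoprime.mul_right_iff]
                constructor
                · rw [(Nat.prime_iff_prime_int.1 hp1).coprime_iff_not_dvd]
                  intro h
                  exact absurd (hκ l p hp1 h) (not_le.2 hzp)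
                · rw [(Nat.prime_iff_prime_int.1 hp1).coprime_iff_not_dvd, Int.natCast_dvd_natCast]
                  intro h
                  have h3 := Nat.dvd_gcd h hp2
                  rw [hD3 l i hli] at h3
                  exact absurd (Nat.dvd_one.1 h3) hp1.one_lt.ne'
              have hor := jacobiSym.eq_one_or_neg_one hcop
              have hmem : l ∈ ngs (fun k => κ k * (D k : ℤ)) i p ↔
                  jacobiSym (κ l * D l) p = -1 := by
                unfold ngs
                rw [Finset.mem_filter]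
                simp only [Finset.mem_univ, true_and]
                exact ⟨fun h => h.2, fun h => ⟨hli, h⟩⟩
              by_cases hlN : jacobiSym (κ l * (D l : ℤ)) p = -1
              · rw [if_pos (hmem.2 hlN)]
                exact hlN
              · rw [if_neg fun h => hlN (hmem.1 h)]
                exact hor.resolve_right hlN
            · ext k
              rw [Finset.mem_subtype]
              unfold ngs
              rw [Finset.mem_filter, Finset.mem_filter]
              simp only [Finset.mem_univ, true_and, ne_eq, Subtype.ext_iff]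
        · funext k
          unfold glue
          by_cases hk : k ∈ I
          · rw [dif_pos hk]
          · rw [dif_neg hk, hunI k hk]
  rw [cntS_eq]
  refine (Finset.card_le_card hsub).trans ((Finset.card_union_le _ _).trans ?_)
  refine Nat.add_le_add (le_of_eq ?_) ?_
  · rw [Fintype.card_piFinset, Finset.prod_const, Finset.card_univ, Nat.card_Icc,
      Nat.add_sub_cancel]
  · refine Finset.card_biUnion_le.trans (Finset.sum_le_sum fun I _ => ?_)
    refine Finset.card_biUnion_le.trans (Finset.sum_le_sum fun u _ => ?_)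
    rw [cnt_eq]
    exact Finset.card_image_le

end Pool.Agent.W762.TW
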